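import Mathlib
import Pool.Agent.H567Z.MinMain2

set_option autoImplicit false

namespace Pool.Agent.Results.MP_87c52b_gt.CompactLie

open Pool.Agent.H567Z
open scoped Manifold ContDiff

universe u

/-- Every pseudocompact minimal (or totally minimal) Hausdorff topological group with property Z
is a compact real-analytic Lie group. -/
theorem result (G : Type u) [Group G] [TopologicalSpace G] [IsTopologicalGroup G] [T2Space G]
    (hpc : IsPseudocompact G) (hmin : IsMinimalGroup G ∨ IsTotallyMinimalGroup G)
    (hZ : HasPropertyZ G) :
    CompactSpace G ∧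
      ∃ (n : ℕ) (_ : ChartedSpace (EuclideanSpace ℝ (Fin n)) G), LieGroup (𝓡 n) ω G :=
  have h := main_pc G hpc (hmin.elim id minimal_of_totally) (propZm_of_propZ hZ)
  ⟨h.1, h.2.2⟩

end Pool.Agent.Results.MP_87c52b_gt.CompactLie
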